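import Pool.Agent.J4H50.YJ.Stm

/-!
# The generating functions of a cone (piece C4 of project YJ of helper50)
-/

set_option autoImplicit false

namespace Pool.Agent.J4H36.YJ

open PowerSeries (C X coeff mk)
open Pool.Agent.W574.MO (geo mf)
open Pool.Agent.J4H50.YM (sbS ptZ coneZ)
open Pool.Agent.J4H50.YJ (wj S_C4)

section D

variable {R : Type} [CommRing R]

/-- `∑_{i ≥ 1} X ^ (d i) e_i` -/
noncomputable def D (d : ℕ) (e : ℕ → PowerSeries R) : PowerSeries R :=
  mk fun l => coeff l (∑ i ∈ Finset.Icc 1 l, (X : PowerSeries R) ^ (d * i) * e i)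

theorem coeff_D {d : ℕ} (hd : 1 ≤ d) (e : ℕ → PowerSeries R) {l L : ℕ} (h : l ≤ L) :
    coeff l (D d e) = coeff l (∑ i ∈ Finset.Icc 1 L, (X : PowerSeries R) ^ (d * i) * e i) := by
  rw [D, PowerSeries.coeff_mk, map_sum, map_sum]
  refine Finset.sum_subset (Finset.Icc_subset_Icc_right h) ?_
  intro i hi hi2
  rw [Finset.mem_Icc] at hi hi2
  have h1 : l < d * i := by
    have : i ≤ d * i := Nat.le_mul_of_pos_left i hd
    omega
  rw [PowerSeries.coeff_X_pow_mul', if_neg (by omega)]

theorem D_congr {d : ℕ} (e e' : ℕ → PowerSeries R) (h : ∀ i, 1 ≤ i → e i = e' i) :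
    D d e = D d e' := by
  rw [D, D]
  congr 1
  funext l
  congr 1
  refine Finset.sum_congr rfl fun i hi => ?_
  rw [h i (Finset.mem_Icc.1 hi).1]

theorem D_add (d : ℕ) (e e' : ℕ → PowerSeries R) :
    D d (fun i => e i + e' i) = D d e + D d e' := by
  ext l
  rw [map_add, D, D, D, PowerSeries.coeff_mk, PowerSeries.coeff_mk, PowerSeries.coeff_mk, ← map_add,
    ← Finset.sum_add_distrib]
  simp only [mul_add]

theorem D_mul {d : ℕ} (hd : 1 ≤ d) (f : PowerSeries R) (e : ℕ → PowerSeries R) :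
    D d (fun i => f * e i) = f * D d e := by
  ext l
  rw [D, PowerSeries.coeff_mk, PowerSeries.coeff_mul]
  have h1 : ∑ i ∈ Finset.Icc 1 l, (X : PowerSeries R) ^ (d * i) * (f * e i) =
      f * ∑ i ∈ Finset.Icc 1 l, (X : PowerSeries R) ^ (d * i) * e i := by
    rw [Finset.mul_sum]
    refine Finset.sum_congr rfl fun i _ => ?_
    ring
  rw [h1, PowerSeries.coeff_mul]
  refine Finset.sum_congr rfl fun p hp => ?_
  rw [coeff_D hd e (by have := Finset.HasAntidiagonal.mem_antidiagonal.1 hp; omega : p.2 ≤ l)]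

theorem D_sum {d : ℕ} (hd : 1 ≤ d) {ι : Type} (s : Finset ι) (e : ι → ℕ → PowerSeries R) :
    D d (fun i => ∑ r ∈ s, e r i) = ∑ r ∈ s, D d (e r) := by
  classical
  induction s using Finset.induction_on with
  | empty =>
    simp only [Finset.sum_empty]
    have := D_mul hd (0 : PowerSeries R) (fun _ => 0)
    simpa using this
  | insert a s ha ih =>
    simp only [Finset.sum_insert ha]
    rw [D_add, ih]

theorem sum_shift {P : Type} [AddCommMonoid P] (f : ℕ → P) (l : ℕ) :
    ∑ i ∈ Finset.Icc 1 (l + 1), f i = f 1 + ∑ i ∈ Finset.Icc 1 l, f (i + 1) := by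
  induction l with
  | zero => simp
  | succ l ih =>
    rw [Finset.sum_Icc_succ_top (by omega), ih, Finset.sum_Icc_succ_top (by omega), add_assoc]

theorem D_rec {d : ℕ} (hd : 1 ≤ d) (e : ℕ → PowerSeries R) :
    D d e = X ^ d * (e 1 + D d (fun i => e (i + 1))) := by
  ext l
  rw [coeff_D hd e (Nat.le_succ l), PowerSeries.coeff_X_pow_mul']
  have h1 : ∑ i ∈ Finset.Icc 1 (l + 1), (X : PowerSeries R) ^ (d * i) * e i =
      X ^ d * (e 1 + ∑ i ∈ Finset.Icc 1 l, (X : PowerSeries R) ^ (d * i) * e (i + 1)) := by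
    rw [sum_shift, mul_add, Finset.mul_sum, mul_one]
    congr 1
    refine Finset.sum_congr rfl fun i _ => ?_
    rw [mul_add, mul_one, pow_add]
    ring
  rw [h1, PowerSeries.coeff_X_pow_mul']
  split_ifs with h
  · rw [map_add, map_add, coeff_D hd _ (Nat.sub_le l d)]
  · rfl

/-- the solution of the recursion -/
theorem D_solve {d : ℕ} (hd : 1 ≤ d) (w : R) (g : PowerSeries R)
    (hg : (1 - C w * X ^ d) * g = 1) (e f : ℕ → PowerSeries R)
    (h1 : e 1 = C w * f 0) (h : ∀ i, 1 ≤ i → e (i + 1) = C w * (e i + f i)) :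
    D d e = g * (C w * X ^ d) * (f 0 + D d f) := by
  have h2 : D d e = X ^ d * (C w * f 0 + C w * (D d e + D d f)) := by
    rw [← D_add, ← D_mul hd, ← D_congr _ _ h, ← h1]
    exact D_rec hd e
  have h3 : (1 - C w * X ^ d) * D d e = C w * X ^ d * (f 0 + D d f) := by
    linear_combination h2
  calc D d e = g * ((1 - C w * X ^ d) * D d e) := by
        rw [← mul_assoc, mul_comm g, hg, one_mul]
    _ = _ := by rw [h3]; ring

end D

section geo

variable {R : Type} [CommRing R]

theorem geo_spec (u : Rˣ) (n : ℕ) {d : ℕ} (hd : 1 ≤ d) :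
    (1 - C (((u⁻¹ : Rˣ) : R) ^ n) * X ^ d) * geo u d n = 1 := by
  have h := PowerSeries.mul_invOfUnit
    (1 - C (((u⁻¹ ^ n : Rˣ) : R)) * X ^ d : PowerSeries R) 1 (by
      have : d ≠ 0 := by omega
      simp [this])
  rw [Units.val_pow_eq_pow_val] at h
  rw [geo, Units.val_pow_eq_pow_val]
  exact h

/-- `∑_j w ^ j X ^ j` -/
theorem geo_one (u : Rˣ) : geo u 1 1 = mk fun j => ((u⁻¹ : Rˣ) : R) ^ j := by
  have h1 := geo_spec u 1 le_rfl
  rw [pow_one, pow_one] at h1
  have h2 : (1 - C ((u⁻¹ : Rˣ) : R) * X) * (mk fun j => ((u⁻¹ : Rˣ) : R) ^ j) =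
      (1 : PowerSeries R) := by
    ext j
    rw [sub_mul, one_mul, mul_assoc, map_sub, PowerSeries.coeff_mk, PowerSeries.coeff_C_mul]
    rcases j with _ | j
    · simp
    · rw [PowerSeries.coeff_succ_X_mul, PowerSeries.coeff_mk, PowerSeries.coeff_one,
        if_neg (by omega), pow_succ]
      ring
  calc geo u 1 1 = ((1 - C ((u⁻¹ : Rˣ) : R) * X) * (mk fun j => ((u⁻¹ : Rˣ) : R) ^ j)) *
        geo u 1 1 := by rw [h2, one_mul]
    _ = (mk fun j => ((u⁻¹ : Rˣ) : R) ^ j) * ((1 - C ((u⁻¹ : Rˣ) : R) * X) * geo u 1 1) := by ring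
    _ = _ := by rw [h1, mul_one]

/-- the series `sbS` -/
theorem sbS_mk (u : Rˣ) (n : ℕ) {d : ℕ} (hd : 1 ≤ d) (y : ℕ → R) :
    sbS u n d (mk y) = C (y 0) +
      D d (fun i => C (((u⁻¹ : Rˣ) : R) ^ (n * i) * y i) * X ^ i) := by
  ext l
  have h0 : sbS u n d (mk y) =
      PowerSeries.expand (d + 1) (Nat.succ_ne_zero d)
        (PowerSeries.rescale ((u⁻¹ ^ n : Rˣ) : R) (mk y)) := rfl
  rw [h0, map_add, coeff_D hd _ le_rfl, map_sum, PowerSeries.coeff_expand]
  rw [PowerSeries.coeff_C]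
  have h1 : ∀ i ∈ Finset.Icc 1 l, coeff l ((X : PowerSeries R) ^ (d * i) *
      (C (((u⁻¹ : Rˣ) : R) ^ (n * i) * y i) * X ^ i)) =
      if l = (d + 1) * i then ((u⁻¹ : Rˣ) : R) ^ (n * i) * y i else 0 := by
    intro i _
    have h2 : (X : PowerSeries R) ^ (d * i) * (C (((u⁻¹ : Rˣ) : R) ^ (n * i) * y i) * X ^ i) =
        C (((u⁻¹ : Rˣ) : R) ^ (n * i) * y i) * X ^ ((d + 1) * i) := by
      rw [add_mul, one_mul, pow_add]
      ring
    rw [h2, PowerSeries.coeff_C_mul, PowerSeries.coeff_X_pow]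
    split_ifs <;> simp
  rw [Finset.sum_congr rfl h1]
  by_cases hl : (d + 1) ∣ l
  · obtain ⟨m, rfl⟩ := hl
    rw [if_pos (dvd_mul_right _ _), Nat.mul_div_cancel_left _ (Nat.succ_pos d),
      PowerSeries.coeff_rescale, PowerSeries.coeff_mk, Units.val_pow_eq_pow_val, ← pow_mul]
    rcases m with _ | m
    · simp
    · rw [if_neg (by positivity), zero_add, Finset.sum_eq_single (m + 1)]
      · rw [if_pos rfl]
      · intro i _ hi
        rw [if_neg]
        intro h
        exact hi (Nat.eq_of_mul_eq_mul_left (Nat.succ_pos d) h).symm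
      · intro h
        exfalso
        apply h
        rw [Finset.mem_Icc]
        exact ⟨by omega, Nat.le_mul_of_pos_left _ (Nat.succ_pos d)⟩
  · rw [if_neg hl, if_neg (by rintro rfl; exact hl (dvd_zero _)), zero_add]
    symm
    refine Finset.sum_eq_zero fun i _ => ?_
    rw [if_neg]
    rintro rfl
    exact hl (dvd_mul_right _ _)

theorem vol_mk (y : ℕ → R) : Pool.Agent.J4H50.YM.vol (mk y) = mk fun m => 1 - ∑ l ∈ Finset.range (m + 1), y l := by
  ext m
  rw [Pool.Agent.J4H50.YM.vol, PowerSeries.coeff_mul, PowerSeries.coeff_mk]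
  simp only [PowerSeries.coeff_mk, mul_one]
  rw [Finset.Nat.sum_antidiagonal_eq_sum_range_succ_mk]
  simp only [map_sub, PowerSeries.coeff_one, PowerSeries.coeff_mk, Finset.sum_sub_distrib]
  congr 1
  rw [Finset.sum_ite_eq' (Finset.range m.succ) 0 (fun _ => (1 : R))]
  simp

/-- the part of a point of the tangent cone -/
theorem pt (u : Rˣ) (m : ℕ) {d : ℕ} (hd : 1 ≤ d) (z : ℕ → R) (hz : z 0 = 0) :
    D d (fun i => C (((u⁻¹ : Rˣ) : R) ^ ((m + 1) * i)) * (C ((u : R) ^ (m + 1)) *
      mk fun j => if j = 0 then 0 else wj ((u⁻¹ : Rˣ) : R) (m + 1) z i j)) =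
    ptZ u (m + 1) d (mk fun l => if l = 0 then 0 else (u : R) ^ m * z l) := by
  set w : R := ((u⁻¹ : Rˣ) : R) with hw
  have huw : (u : R) * w = 1 := by rw [hw, Units.mul_inv]
  have huwm : ∀ k : ℕ, (u : R) ^ k * w ^ k = 1 := fun k => by rw [← mul_pow, huw, one_pow]
  have hmk : (mk fun l => if l = 0 then 0 else (u : R) ^ m * z l) =
      mk fun l => (u : R) ^ m * z l := by
    ext l
    rw [PowerSeries.coeff_mk, PowerSeries.coeff_mk]
    split_ifs with h
    · rw [h, hz, mul_zero]
    · rfl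
  rw [hmk]
  set y : ℕ → R := fun l => (u : R) ^ m * z l with hy
  have hy0 : y 0 = 0 := by rw [hy]; simp [hz]
  set V : ℕ → R := fun k => 1 - ∑ l ∈ Finset.range (k + 1), y l with hV
  have hV0 : V 0 = 1 := by simp [hV, hy0]
  have hy1 : ∀ l, y l = (u : R) ^ m * z l := fun l => rfl
  have hV1 : ∀ k, V k = 1 - ∑ l ∈ Finset.range (k + 1), y l := fun k => rfl
  clear_value y V
  -- the parts
  have hW : ∀ i, 1 ≤ i → C (w ^ ((m + 1) * i)) * (C ((u : R) ^ (m + 1)) *
      mk fun j => if j = 0 then 0 else wj w (m + 1) z i j) =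
      C ((u : R) - 1) * (C (w ^ ((m + 1) * i)) * ∑ j ∈ Finset.Ico 1 i, C (y j) * X ^ j) +
      (C ((u : R) - 1) * (C (w ^ ((m + 1) * i) * V i) * X ^ i) +
      (C ((u : R) - 2) + C ((u : R) - 1) * (geo u 1 1 - 1)) *
        (C (w ^ ((m + 1) * i) * y i) * X ^ i)) := by
    intro i hi
    have h1 : C ((u : R) ^ (m + 1)) * (mk fun j => if j = 0 then 0 else wj w (m + 1) z i j) =
        C ((u : R) - 1) * (∑ j ∈ Finset.Ico 1 i, C (y j) * X ^ j) +
        (C ((u : R) - 1) * (C (V i) * X ^ i) +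
        (C ((u : R) - 2) + C ((u : R) - 1) * (geo u 1 1 - 1)) * (C (y i) * X ^ i)) := by
      have h2 : (C ((u : R) - 2) + C ((u : R) - 1) * (geo u 1 1 - 1)) * (C (y i) * X ^ i) =
          X ^ i * (C (y i) * (C ((u : R) - 2) + C ((u : R) - 1) * (geo u 1 1 - 1))) := by ring
      rw [h2]
      ext j
      rw [map_add, map_add, PowerSeries.coeff_C_mul, PowerSeries.coeff_C_mul,
        PowerSeries.coeff_C_mul, PowerSeries.coeff_C_mul, PowerSeries.coeff_mk, map_sum,
        PowerSeries.coeff_X_pow_mul', PowerSeries.coeff_X_pow]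
      have h3 : ∀ k, coeff j (C (y k) * X ^ k : PowerSeries R) = if j = k then y k else 0 := by
        intro k
        rw [PowerSeries.coeff_C_mul, PowerSeries.coeff_X_pow]
        split_ifs <;> simp
      simp only [h3]
      rw [Finset.sum_ite_eq (Finset.Ico 1 i) j y]
      have h5 : coeff (j - i) (geo u 1 1 - 1) = w ^ (j - i) - if j - i = 0 then 1 else 0 := by
        rw [map_sub, geo_one, PowerSeries.coeff_mk, PowerSeries.coeff_one]
      rw [PowerSeries.coeff_C_mul, map_add, PowerSeries.coeff_C_mul, h5, PowerSeries.coeff_C]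
      have hu1 : (u : R) ^ (m + 1) = (u : R) ^ m * u := pow_succ _ _
      rcases Nat.eq_zero_or_pos j with rfl | hj
      · rw [if_pos rfl, if_neg (by simp), if_neg (by omega), if_neg (by omega)]
        ring
      · rw [if_neg (by omega)]
        rcases lt_trichotomy j i with h | h | h
        · rw [if_pos (Finset.mem_Ico.2 ⟨hj, h⟩), if_neg (by omega), if_neg (by omega), wj,
            if_pos h, hu1, hy1]
          linear_combination (-((u : R) ^ m * z j)) * huw
        · subst h
          rw [if_neg (by simp), if_pos rfl, if_pos le_rfl, wj, if_neg (lt_irrefl _), if_pos rfl,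
            Nat.sub_self, if_pos rfl, if_pos rfl, pow_zero, Nat.add_sub_cancel, hu1]
          have hVj : V j = 1 - (u : R) ^ m * ∑ l ∈ Finset.range (j + 1), z l := by
            rw [hV1, Finset.mul_sum]
            simp only [hy1]
          rw [hVj, hy1]
          have e1 := huwm m
          linear_combination ((u : R) * (1 - w)) * e1 +
            ((u : R) ^ m * (∑ l ∈ Finset.range (j + 1), z l) - 2 * (u : R) ^ m * z j - 1) * huw
        · rw [if_neg (by simp; omega), if_neg (by omega), if_pos h.le, wj, if_neg (by omega),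
            if_neg (by omega), if_neg (by omega), if_neg (by omega), hu1, hy1]
          linear_combination (-((u : R) ^ m * z i * w ^ (j - i))) * huw
    have h4 : ∀ P Q : R, C (P * Q) = (C P * C Q : PowerSeries R) := fun P Q => map_mul _ _ _
    rw [h1, h4, h4]
    ring
  rw [D_congr _ _ hW, D_add, D_add, D_mul hd, D_mul hd, D_mul hd]
  have hG := D_solve hd (w ^ (m + 1)) (geo u d (m + 1)) (geo_spec u (m + 1) hd)
    (fun i => C (w ^ ((m + 1) * i)) * ∑ j ∈ Finset.Ico 1 i, C (y j) * X ^ j)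
    (fun i => C (w ^ ((m + 1) * i) * y i) * X ^ i)
    (by simp [hy0]) (by
      intro i hi
      show C (w ^ ((m + 1) * (i + 1))) * ∑ j ∈ Finset.Ico 1 (i + 1), C (y j) * X ^ j = _
      rw [Finset.sum_Ico_succ_top hi, mul_add (m + 1), mul_one, pow_add, map_mul, map_mul]
      ring)
  rw [hG, ptZ, sbS_mk u (m + 1) hd, vol_mk, sbS_mk u (m + 1) hd]
  simp only [← hV1]
  have e0 : C (w ^ ((m + 1) * 0) * y 0) * X ^ 0 = (0 : PowerSeries R) := by simp [hy0]
  have e2 : C (y 0) = (0 : PowerSeries R) := by rw [hy0, map_zero]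
  have e3 : geo u d (m + 1) * (C (w ^ (m + 1)) * X ^ d) = geo u d (m + 1) - 1 := by
    have := geo_spec u (m + 1) hd
    linear_combination -this
  rw [e3, e2]
  simp only [e0, hV0]
  rw [map_one, ← hw]
  have e4 : (C ((u : R) - 2) : PowerSeries R) = C (u : R) - 2 := by
    rw [map_sub, map_ofNat]
  have e5 : (C ((u : R) - 1) : PowerSeries R) = C (u : R) - 1 := by
    rw [map_sub, map_one]
  rw [e4, e5]
  ring

theorem t_C4 : S_C4 := by
  intro R _ u n d hn hd ι _ A χU χY hU hY z hz a q ha hq0 hq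
  obtain ⟨m, rfl⟩ : ∃ m, n = m + 1 := ⟨n - 1, by omega⟩
  set w : R := ((u⁻¹ : Rˣ) : R) with hw
  have huw : (u : R) * w = 1 := by rw [hw, Units.mul_inv]
  have huwm : ∀ k : ℕ, (u : R) ^ k * w ^ k = 1 := fun k => by rw [← mul_pow, huw, one_pow]
  set B : R := (∑ i ∈ Finset.range (m + 1), (u : R) ^ i) - A - (Fintype.card ι : R) with hB
  have h1 : (mk fun l => if l = 0 then 0 else (u : R) ^ (m + 1) * a l) =
      D d (fun i => C (w ^ ((m + 1) * i)) * (C ((u : R) ^ (m + 1)) * mk (q i))) := by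
    ext l
    rw [PowerSeries.coeff_mk, coeff_D hd _ le_rfl, map_sum]
    rcases Nat.eq_zero_or_pos l with rfl | hl
    · simp
    · rw [if_neg (by omega), ha l hl, Finset.mul_sum]
      refine Finset.sum_congr rfl fun i _ => ?_
      rw [PowerSeries.coeff_X_pow_mul']
      split_ifs with h
      · rw [PowerSeries.coeff_C_mul, PowerSeries.coeff_C_mul, PowerSeries.coeff_mk]
        ring
      · rw [mul_zero]
  have h2 : ∀ i, 1 ≤ i → C (w ^ ((m + 1) * i)) * (C ((u : R) ^ (m + 1)) * mk (q i)) =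
      (C (A * ((u : R) - 1)) + C (B * ((u : R) - 1)) * (C ((u : R) - 1) * (C w * X * geo u 1 1))) *
        C (w ^ ((m + 1) * i)) +
      ∑ r, C (w ^ ((m + 1) * i)) * (C ((u : R) ^ (m + 1)) *
        mk fun j => if j = 0 then 0 else wj w (m + 1) (z r) i j) := by
    intro i hi
    have h3 : C ((u : R) ^ (m + 1)) * mk (q i) =
        (C (A * ((u : R) - 1)) +
          C (B * ((u : R) - 1)) * (C ((u : R) - 1) * (C w * X * geo u 1 1))) +
        ∑ r, (C ((u : R) ^ (m + 1)) *
          mk fun j => if j = 0 then 0 else wj w (m + 1) (z r) i j) := by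
      ext j
      have h4 : C (B * ((u : R) - 1)) * (C ((u : R) - 1) * (C w * X * geo u 1 1)) =
          C (B * ((u : R) - 1) * ((u : R) - 1) * w) * (X * geo u 1 1) := by
        rw [map_mul, map_mul, map_mul, map_mul]
        ring
      rw [h4, map_add, map_add, map_sum, PowerSeries.coeff_C_mul, PowerSeries.coeff_C_mul,
        PowerSeries.coeff_mk, PowerSeries.coeff_C, geo_one]
      rcases j with _ | j
      · rw [if_pos rfl, hq0 i hi, hU]
        simp only [PowerSeries.coeff_C_mul, PowerSeries.coeff_mk, if_true, mul_zero,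
          Finset.sum_const_zero, PowerSeries.coeff_zero_X_mul, add_zero]
        linear_combination (((u : R) - 1) * A) * huwm (m + 1)
      · rw [if_neg (by omega), hq i (j + 1) hi (by omega), hY, PowerSeries.coeff_succ_X_mul,
          PowerSeries.coeff_mk, mul_add, Finset.mul_sum, Nat.add_sub_cancel, ← hw]
        simp only [PowerSeries.coeff_C_mul, PowerSeries.coeff_mk, if_neg (Nat.succ_ne_zero j)]
        rw [zero_add]
        congr 1
        have e1 := huwm (m + 1)
        linear_combination (((u : R) - 1) * B * (1 - w) * w ^ j) * e1 -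
          (((u : R) - 1) * B * w ^ j) * huw
    rw [h3, mul_add, Finset.mul_sum]
    congr 1
    ring
  rw [h1, D_congr _ _ h2, D_add, D_mul hd, D_sum hd, coneZ]
  have h5 : D d (fun i => C (w ^ ((m + 1) * i))) =
      geo u d (m + 1) * (C (w ^ (m + 1)) * X ^ d) := by
    have h6 := D_solve hd (w ^ (m + 1)) (geo u d (m + 1)) (geo_spec u (m + 1) hd)
      (fun i => C (w ^ ((m + 1) * i))) (fun i => if i = 0 then 1 else 0)
      (by simp) (by
        intro i hi
        show C (w ^ ((m + 1) * (i + 1))) = _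
        rw [if_neg (by omega), add_zero, ← map_mul, mul_add (m + 1), mul_one, pow_add, mul_comm])
    rw [h6]
    have h7 : D d (fun i => if i = 0 then (1 : PowerSeries R) else 0) = 0 := by
      rw [D_congr _ (fun _ => (0 : PowerSeries R) * 0) (fun i hi => by
        rw [if_neg (by omega), mul_zero]), D_mul hd, zero_mul]
    rw [h7, if_pos rfl, add_zero, mul_one]
  rw [h5]
  have hmf : ∀ k e : ℕ, 1 ≤ k → mf u k e = C (((u : R) - 1) * w ^ e) * X ^ k * geo u k e := by
    intro k e hk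
    rw [mf, if_neg (by omega), Units.val_pow_eq_pow_val]
  rw [hmf d (m + 1) hd, hmf 1 1 le_rfl]
  congr 1
  · rw [map_mul, map_mul, map_mul, map_mul, pow_one, pow_one]
    ring
  · refine Finset.sum_congr rfl fun r _ => ?_
    rw [pt u m hd (z r) (hz r), Nat.add_sub_cancel]

end geo

end Pool.Agent.J4H36.YJ
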